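import Mathlib

set_option autoImplicit false

/-!
# Boxes of tuples at which a word does not vanish
-/

namespace Pool.Agent.GLW18

variable {n : ℕ} {G : Type*} [Group G]

/-- All tuples of the box `F` have a value of `w` outside `P`, and `g` belongs to the box. -/
def Box (w : FreeGroup (Fin n)) (P : Set G) (g : Fin n → G) (F : Fin n → Finset G) : Prop :=
  (∀ i, g i ∈ F i) ∧ ∀ s : Fin n → G, (∀ i, s i ∈ F i) → FreeGroup.lift s w ∉ P

theorem box_step [DecidableEq G] {w : FreeGroup (Fin n)} {P : Set G} {g : Fin n → G}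
    (h : ∀ (i : Fin n) (A : Finset (Fin n → G)), (∀ a ∈ A, a i = g i ∧ FreeGroup.lift a w ∉ P) →
      {x : G | ∀ a ∈ A, FreeGroup.lift (Function.update a i x) w ∉ P}.Infinite)
    {F : Fin n → Finset G} (hF : Box w P g F) (i : Fin n) :
    ∃ x, x ∉ F i ∧ Box w P g (Function.update F i (insert x (F i))) := by
  classical
  have h1 := h i ((Fintype.piFinset F).filter (fun a => a i = g i)) (by
    intro a ha
    rw [Finset.mem_filter, Fintype.mem_piFinset] at ha
    exact ⟨ha.2, hF.2 a ha.1⟩)
  obtain ⟨x, hx, hxF⟩ := h1.exists_notMem_finset (F i)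
  refine ⟨x, hxF, ?_, ?_⟩
  · intro j
    by_cases hj : j = i
    · subst hj
      rw [Function.update_self]
      exact Finset.mem_insert_of_mem (hF.1 j)
    · rw [Function.update_of_ne hj]
      exact hF.1 j
  · intro s hs
    have hs' : ∀ j, j ≠ i → s j ∈ F j := by
      intro j hj
      have := hs j
      rwa [Function.update_of_ne hj] at this
    have hsi := hs i
    rw [Function.update_self, Finset.mem_insert] at hsi
    rcases hsi with hsi | hsi
    · have h2 := hx (Function.update s i (g i)) (by
        rw [Finset.mem_filter, Fintype.mem_piFinset]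
        refine ⟨fun j => ?_, Function.update_self ..⟩
        by_cases hj : j = i
        · subst hj
          rw [Function.update_self]
          exact hF.1 j
        · rw [Function.update_of_ne hj]
          exact hs' j hj)
      rw [Function.update_idem, ← hsi, Function.update_eq_self] at h2
      exact h2
    · apply hF.2
      intro j
      by_cases hj : j = i
      · subst hj
        exact hsi
      · exact hs' j hj

theorem box_next [DecidableEq G] {w : FreeGroup (Fin n)} {P : Set G} {g : Fin n → G}
    (h : ∀ (i : Fin n) (A : Finset (Fin n → G)), (∀ a ∈ A, a i = g i ∧ FreeGroup.lift a w ∉ P) →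
      {x : G | ∀ a ∈ A, FreeGroup.lift (Function.update a i x) w ∉ P}.Infinite)
    {F : Fin n → Finset G} (hF : Box w P g F) (J : Finset (Fin n)) :
    ∃ F' : Fin n → Finset G, Box w P g F' ∧ (∀ i, F i ⊆ F' i) ∧
      ∀ i ∈ J, ∃ x ∈ F' i, x ∉ F i := by
  classical
  induction J using Finset.induction_on with
  | empty => exact ⟨F, hF, fun i => Finset.Subset.refl _, fun i hi => absurd hi (by simp)⟩
  | insert j J _ ih =>
    obtain ⟨F', hF', h1, h2⟩ := ih
    obtain ⟨x, hx, hb⟩ := box_step h hF' j
    have hsub : ∀ i, F' i ⊆ Function.update F' j (insert x (F' j)) i := by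
      intro i
      by_cases hi : i = j
      · subst hi
        rw [Function.update_self]
        exact Finset.subset_insert _ _
      · rw [Function.update_of_ne hi]
    refine ⟨_, hb, fun i => (h1 i).trans (hsub i), ?_⟩
    intro i hi
    rw [Finset.mem_insert] at hi
    by_cases hij : i = j
    · subst hij
      exact ⟨x, by rw [Function.update_self]; exact Finset.mem_insert_self _ _,
        fun hxF => hx (h1 i hxF)⟩
    · obtain ⟨y, hy, hy'⟩ := h2 i (hi.resolve_left hij)
      exact ⟨y, hsub i hy, hy'⟩

/-- The equations which fail at one point of a failing tuple. -/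
theorem cover (w : FreeGroup (Fin n))
    (hG : ∀ S : Fin n → Set G, (∀ i, (S i).Infinite) →
      ∃ s : Fin n → G, (∀ i, s i ∈ S i) ∧ FreeGroup.lift s w = 1)
    (P : Set G) (hP : 1 ∈ P) (g : Fin n → G) (hg : FreeGroup.lift g w ∉ P) :
    ∃ (i : Fin n) (A : Finset (Fin n → G)),
      (∀ a ∈ A, a i = g i ∧ FreeGroup.lift a w ∉ P) ∧
      {x : G | ∀ a ∈ A, FreeGroup.lift (Function.update a i x) w ∉ P}.Finite := by
  classical
  by_contra hcon
  push Not at hcon
  have h : ∀ (i : Fin n) (A : Finset (Fin n → G)),
      (∀ a ∈ A, a i = g i ∧ FreeGroup.lift a w ∉ P) →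
      {x : G | ∀ a ∈ A, FreeGroup.lift (Function.update a i x) w ∉ P}.Infinite :=
    fun i A hA => hcon i A hA
  have h0 : Box w P g (fun i => {g i}) := by
    refine ⟨fun i => Finset.mem_singleton_self _, fun s hs => ?_⟩
    have : s = g := funext fun i => Finset.mem_singleton.1 (hs i)
    rw [this]
    exact hg
  have hstep : ∀ F : {F : Fin n → Finset G // Box w P g F},
      ∃ F' : {F : Fin n → Finset G // Box w P g F}, (∀ i, F.1 i ⊆ F'.1 i) ∧
        ∀ i, ∃ x ∈ F'.1 i, x ∉ F.1 i := by
    rintro ⟨F, hF⟩
    obtain ⟨F', a, b, c⟩ := box_next h hF Finset.univ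
    exact ⟨⟨F', a⟩, b, fun i => c i (Finset.mem_univ i)⟩
  choose next hn1 hn2 using hstep
  let B : ℕ → {F : Fin n → Finset G // Box w P g F} :=
    fun m => Nat.rec ⟨_, h0⟩ (fun _ F => next F) m
  have hBs : ∀ m, B (m + 1) = next (B m) := fun m => rfl
  have hmono : ∀ i, Monotone (fun m => (B m).1 i) := fun i =>
    monotone_nat_of_le_succ (fun m => by
      rw [hBs]
      exact hn1 (B m) i)
  have hcard : ∀ i m, m ≤ ((B m).1 i).card := by
    intro i m
    induction m with
    | zero => exact Nat.zero_le _
    | succ m ih =>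
      have hlt : ((B m).1 i).card < ((B (m + 1)).1 i).card := by
        apply Finset.card_lt_card
        rw [hBs]
        refine ⟨hn1 (B m) i, fun hsub => ?_⟩
        obtain ⟨x, hx, hx'⟩ := hn2 (B m) i
        exact hx' (hsub hx)
      omega
  obtain ⟨s, hs, hw⟩ := hG (fun i => {x | ∃ m, x ∈ (B m).1 i}) (by
    intro i hfin
    have h1 : (B (hfin.toFinset.card + 1)).1 i ⊆ hfin.toFinset := by
      intro x hx
      rw [Set.Finite.mem_toFinset]
      exact ⟨hfin.toFinset.card + 1, hx⟩
    have h2 := Finset.card_le_card h1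
    have h3 := hcard i (hfin.toFinset.card + 1)
    omega)
  choose m hm using hs
  have h4 := (B (Finset.univ.sup m)).2.2 s (fun i =>
    hmono i (Finset.le_sup (Finset.mem_univ i)) (hm i))
  rw [hw] at h4
  exact h4 hP

/-- Topologies for which the word is continuous in each variable. -/
theorem topology (w : FreeGroup (Fin n))
    (hG : ∀ S : Fin n → Set G, (∀ i, (S i).Infinite) →
      ∃ s : Fin n → G, (∀ i, s i ∈ S i) ∧ FreeGroup.lift s w = 1)
    [TopologicalSpace G]
    (hw : ∀ (i : Fin n) (a : Fin n → G),
      Continuous (fun x : G => FreeGroup.lift (Function.update a i x) w))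
    (hτ : ∀ U : Set G, IsOpen U → U.Nonempty → U.Infinite) (g : Fin n → G) :
    FreeGroup.lift g w ∈ closure ({1} : Set G) := by
  by_contra hg
  obtain ⟨i, A, hA, hfin⟩ := cover w hG (closure ({1} : Set G)) (subset_closure rfl) g hg
  refine hτ _ ?_ ⟨g i, ?_⟩ hfin
  · have : {x : G | ∀ a ∈ A, FreeGroup.lift (Function.update a i x) w ∉ closure ({1} : Set G)} =
        ⋂ a ∈ A, (fun x : G => FreeGroup.lift (Function.update a i x) w) ⁻¹'
          (closure ({1} : Set G))ᶜ := by
      ext x
      simp
    rw [this]
    exact isOpen_biInter_finset (fun a _ => isClosed_closure.isOpen_compl.preimage (hw i a))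
  · intro a ha
    have := hA a ha
    rw [← this.1, Function.update_eq_self]
    exact this.2

end Pool.Agent.GLW18
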