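import Pool.Agent.GLW18.Ramsey

set_option autoImplicit false

/-!
# Centralizers of infinite sets satisfy the law
-/

namespace Pool.Agent.GLW18

variable {n : ℕ} {G : Type*} [Group G]

/-- If the `h i` commute with the `t j`, then the value of a word at the products `h i * t i` is
the product of the values. -/
theorem lift_mul_comm (h t : Fin n → G) (hc : ∀ i j, t j * h i = h i * t j)
    (v : FreeGroup (Fin n)) :
    FreeGroup.lift (fun i => h i * t i) v = FreeGroup.lift h v * FreeGroup.lift t v := by
  have key : ∀ (z : G) (f : Fin n → G), (∀ i, Commute z (f i)) → ∀ u : FreeGroup (Fin n),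
      Commute z (FreeGroup.lift f u) := by
    intro z f hf u
    induction u using FreeGroup.induction_on with
    | C1 => simp
    | of i => simpa using hf i
    | inv_of i _ =>
      have := (hf i).inv_right
      simpa using this
    | mul x y hx hy =>
      rw [map_mul]
      exact hx.mul_right hy
  have comm : ∀ u u' : FreeGroup (Fin n), Commute (FreeGroup.lift h u) (FreeGroup.lift t u') := by
    intro u u'
    apply key
    intro j
    apply Commute.symm
    apply key
    intro i
    exact hc i j
  induction v using FreeGroup.induction_on with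
  | C1 => simp
  | of i => simp
  | inv_of i _ =>
    simp only [map_inv, FreeGroup.lift_apply_of]
    rw [mul_inv_rev]
    have : Commute (t i)⁻¹ (h i)⁻¹ := (show Commute (t i) (h i) from hc i i).inv_inv
    exact this
  | mul x y hx hy =>
    rw [map_mul, map_mul, map_mul, hx, hy]
    have := (comm y x).eq
    rw [mul_assoc, mul_assoc, ← mul_assoc (FreeGroup.lift t x), ← this, mul_assoc]

/-- Every infinite set contains an infinite set all of whose subsets with `n` elements generate
subgroups which satisfy the law. -/
theorem homogeneous (w : FreeGroup (Fin n))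
    (hG : ∀ S : Fin n → Set G, (∀ i, (S i).Infinite) →
      ∃ s : Fin n → G, (∀ i, s i ∈ S i) ∧
        ∀ h : Fin n → ↥(Subgroup.closure (Set.range s)), FreeGroup.lift h w = 1)
    (C : Set G) (hC : C.Infinite) :
    ∃ T : Set G, T ⊆ C ∧ T.Infinite ∧ ∀ t : Fin n → G, Function.Injective t → (∀ i, t i ∈ T) →
      ∀ h : Fin n → ↥(Subgroup.closure (Set.range t)), FreeGroup.lift h w = 1 := by
  classical
  obtain ⟨T, hTC, hT, hP⟩ := ramsey C hC
    (fun E : Finset G => ∀ h : Fin n → ↥(Subgroup.closure (E : Set G)), FreeGroup.lift h w = 1) n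
  refine ⟨T, hTC, hT, ?_⟩
  have himg : ∀ t : Fin n → G, ((Finset.univ.image t : Finset G) : Set G) = Set.range t := by
    intro t
    simp
  rcases hP with hP | hP
  · intro t ht htT
    have h1 := hP (Finset.univ.image t) (by
      rw [himg]
      rintro _ ⟨i, rfl⟩
      exact htT i) (by
      rw [Finset.card_image_of_injective _ ht, Finset.card_univ, Fintype.card_fin])
    rw [himg] at h1
    exact h1
  · exfalso
    obtain ⟨S, hS, hST, hdis⟩ := split hT n
    obtain ⟨s, hs, hw⟩ := hG S hS
    have hinj : Function.Injective s := fun i j hij => hdis i j (s i) (hs i) (by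
      rw [hij]
      exact hs j)
    refine hP (Finset.univ.image s) (by
      rw [himg]
      rintro _ ⟨i, rfl⟩
      exact hST i (hs i)) (by
      rw [Finset.card_image_of_injective _ hinj, Finset.card_univ, Fintype.card_fin]) ?_
    rw [himg]
    exact hw

/-- The elements which commute with all elements of an infinite set satisfy the law. -/
theorem centralizer (w : FreeGroup (Fin n))
    (hG : ∀ S : Fin n → Set G, (∀ i, (S i).Infinite) →
      ∃ s : Fin n → G, (∀ i, s i ∈ S i) ∧
        ∀ h : Fin n → ↥(Subgroup.closure (Set.range s)), FreeGroup.lift h w = 1)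
    (C : Set G) (hC : C.Infinite) (g : Fin n → G) (hg : ∀ c ∈ C, ∀ i, c * g i = g i * c) :
    FreeGroup.lift g w = 1 := by
  obtain ⟨T, hTC, hT, hgood⟩ := homogeneous w hG C hC
  obtain ⟨S, hS, hST, hdis⟩ := split hT n
  obtain ⟨s, hs, hw⟩ := hG (fun i => (fun t => g i * t) '' S i)
    (fun i => (hS i).image (mul_right_injective (g i)).injOn)
  choose t ht hts using hs
  have hinj : Function.Injective t := fun i j hij => hdis i j (t i) (ht i) (by
    rw [hij]
    exact ht j)
  have val : ∀ (u : Fin n → G),
      (∀ h : Fin n → ↥(Subgroup.closure (Set.range u)), FreeGroup.lift h w = 1) →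
      FreeGroup.lift u w = 1 := by
    intro u hu
    have h1 := hu (fun i => ⟨u i, Subgroup.subset_closure ⟨i, rfl⟩⟩)
    have h2 := congrArg (Subgroup.closure (Set.range u)).subtype h1
    rw [map_one] at h2
    have h3 : (Subgroup.closure (Set.range u)).subtype
        (FreeGroup.lift (fun i => (⟨u i, Subgroup.subset_closure ⟨i, rfl⟩⟩ :
          ↥(Subgroup.closure (Set.range u)))) w) = FreeGroup.lift u w := by
      rw [← MonoidHom.comp_apply]
      congr 1
      ext i
      simp
    rw [← h3]
    exact h2
  have h4 := val s hw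
  have h5 := val t (hgood t hinj (fun i => hST i (ht i)))
  have h6 : s = fun i => g i * t i := funext fun i => (hts i).symm
  rw [h6, lift_mul_comm g t (fun i j => hg (t j) (hTC (hST j (ht j))) i), h5, mul_one] at h4
  exact h4

/-- Commuting infinite subgroups. -/
theorem commuting (w : FreeGroup (Fin n))
    (hG : ∀ S : Fin n → Set G, (∀ i, (S i).Infinite) →
      ∃ s : Fin n → G, (∀ i, s i ∈ S i) ∧
        ∀ h : Fin n → ↥(Subgroup.closure (Set.range s)), FreeGroup.lift h w = 1)
    (A B : Subgroup G) (hA : (A : Set G).Infinite) (hB : (B : Set G).Infinite)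
    (hAB : ∀ a ∈ A, ∀ b ∈ B, a * b = b * a) (a b : Fin n → G) (ha : ∀ i, a i ∈ A)
    (hb : ∀ i, b i ∈ B) : FreeGroup.lift (fun i => a i * b i) w = 1 := by
  rw [lift_mul_comm a b (fun i j => (hAB _ (ha i) _ (hb j)).symm),
    centralizer w hG (B : Set G) hB a (fun c hc i => (hAB _ (ha i) _ hc).symm),
    centralizer w hG (A : Set G) hA b (fun c hc i => hAB _ hc _ (hb i)), mul_one]

end Pool.Agent.GLW18
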