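import Pool.Agent.GLW18.Centralizer

set_option autoImplicit false

/-!
# Finite subgroups in which the law fails have finite normalizers
-/

namespace Pool.Agent.GLW18

variable {n : ℕ} {G : Type*} [Group G]

theorem normalizer (w : FreeGroup (Fin n))
    (hG : ∀ S : Fin n → Set G, (∀ i, (S i).Infinite) →
      ∃ s : Fin n → G, (∀ i, s i ∈ S i) ∧
        ∀ h : Fin n → ↥(Subgroup.closure (Set.range s)), FreeGroup.lift h w = 1)
    (H : Subgroup G) (hH : (H : Set G).Finite) (h : Fin n → G) (hh : ∀ i, h i ∈ H)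
    (hne : FreeGroup.lift h w ≠ 1) :
    {c : G | ∀ x, x ∈ H ↔ c * x * c⁻¹ ∈ H}.Finite := by
  by_contra hinf
  have hN : Infinite ↥{c : G | ∀ x, x ∈ H ↔ c * x * c⁻¹ ∈ H} := Set.infinite_coe_iff.2 hinf
  have hf : Finite ↥(H : Set G) := hH
  let f : ↥{c : G | ∀ x, x ∈ H ↔ c * x * c⁻¹ ∈ H} → (Fin n → ↥(H : Set G)) :=
    fun c i => ⟨(c : G) * h i * (c : G)⁻¹, (c.2 (h i)).1 (hh i)⟩
  obtain ⟨y, hy⟩ := Finite.exists_infinite_fiber f
  have hy' : (f ⁻¹' {y}).Infinite := Set.infinite_coe_iff.1 hy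
  obtain ⟨c0, hc0⟩ := hy'.nonempty
  have hinj : Function.Injective
      (fun c : ↥{c : G | ∀ x, x ∈ H ↔ c * x * c⁻¹ ∈ H} => (c0 : G)⁻¹ * (c : G)) := by
    intro a b hab
    exact Subtype.ext (mul_left_cancel hab)
  apply hne
  refine centralizer w hG ((fun c : ↥{c : G | ∀ x, x ∈ H ↔ c * x * c⁻¹ ∈ H} =>
    (c0 : G)⁻¹ * (c : G)) '' (f ⁻¹' {y})) (hy'.image hinj.injOn) h ?_
  rintro _ ⟨c, hc, rfl⟩ i
  have h1 : f c = f c0 := by
    rw [Set.mem_preimage, Set.mem_singleton_iff] at hc hc0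
    rw [hc, hc0]
  have h2 : (c : G) * h i * (c : G)⁻¹ = (c0 : G) * h i * (c0 : G)⁻¹ :=
    congrArg Subtype.val (congrFun h1 i)
  have h3 : (c : G) * h i = (c0 : G) * h i * (c0 : G)⁻¹ * (c : G) := by
    rw [← h2]
    group
  show (c0 : G)⁻¹ * (c : G) * h i = h i * ((c0 : G)⁻¹ * (c : G))
  rw [mul_assoc, h3]
  group

end Pool.Agent.GLW18
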