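import Mathlib

set_option autoImplicit false

/-!
# The theorem of Ramsey for the subsets with `n` elements of an infinite set
-/

namespace Pool.Agent.GLW18

open Filter

/-- If the empty set is good, finite subsets of good sets are good, and every good finite set can
be enlarged to a good one, then there is an infinite set all of whose finite subsets are good. -/
theorem exists_infinite {α : Type*} [DecidableEq α] (Good : Finset α → Prop)
    (hmono : ∀ E F : Finset α, E ⊆ F → Good F → Good E) (h0 : Good ∅)
    (hext : ∀ F, Good F → ∃ x, x ∉ F ∧ Good (insert x F)) :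
    ∃ T : Set α, T.Infinite ∧ ∀ E : Finset α, (E : Set α) ⊆ T → Good E := by
  classical
  have hext' : ∀ F : Finset α, ∃ x, Good F → x ∉ F ∧ Good (insert x F) := by
    intro F
    by_cases hF : Good F
    · obtain ⟨x, hx⟩ := hext F hF
      exact ⟨x, fun _ => hx⟩
    · obtain ⟨x, -⟩ := hext ∅ h0
      exact ⟨x, fun h => absurd h hF⟩
  choose f hf using hext'
  let F : ℕ → Finset α := fun n => Nat.rec ∅ (fun _ E => insert (f E) E) n
  have hFs : ∀ n, F (n + 1) = insert (f (F n)) (F n) := fun n => rfl
  have hF : ∀ n, Good (F n) := by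
    intro n
    induction n with
    | zero => exact h0
    | succ n ih => rw [hFs]; exact (hf _ ih).2
  have hmonoF : Monotone F := monotone_nat_of_le_succ (fun n => by
    rw [hFs]; exact Finset.subset_insert _ _)
  have hcard : ∀ n, (F n).card = n := by
    intro n
    induction n with
    | zero => rfl
    | succ n ih =>
      rw [hFs, Finset.card_insert_of_notMem (hf _ (hF n)).1, ih]
  refine ⟨⋃ n : ℕ, {x : α | x ∈ F n}, ?_, ?_⟩
  · intro hfin
    have h1 : F (hfin.toFinset.card + 1) ⊆ hfin.toFinset := by
      intro x hx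
      rw [Set.Finite.mem_toFinset]
      exact Set.mem_iUnion.2 ⟨hfin.toFinset.card + 1, hx⟩
    have h2 := Finset.card_le_card h1
    have h3 := hcard (hfin.toFinset.card + 1)
    omega
  · intro E hE
    have h : ∃ n, E ⊆ F n := by
      induction E using Finset.induction_on with
      | empty => exact ⟨0, Finset.empty_subset _⟩
      | insert a E _ ih =>
        rw [Finset.coe_insert, Set.insert_subset_iff] at hE
        obtain ⟨n, hn⟩ := ih hE.2
        obtain ⟨m, hm⟩ := Set.mem_iUnion.1 hE.1
        refine ⟨max n m, ?_⟩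
        rw [Finset.insert_subset_iff]
        exact ⟨hmonoF (le_max_right n m) hm, hn.trans (hmonoF (le_max_left n m))⟩
    obtain ⟨n, hn⟩ := h
    exact hmono _ _ hn (hF n)

/-- Iterated quantifiers along an ultrafilter. -/
def Iter {α : Type*} [DecidableEq α] (U : Ultrafilter α) (P : Finset α → Prop) :
    ℕ → Finset α → Prop
  | 0, F => P F
  | k + 1, F => ∀ᶠ c in (U : Filter α), Iter U P k (insert c F)

theorem iter_not {α : Type*} [DecidableEq α] (U : Ultrafilter α) (P : Finset α → Prop) (k : ℕ)
    (F : Finset α) : Iter U (fun E => ¬ P E) k F ↔ ¬ Iter U P k F := by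
  induction k generalizing F with
  | zero => exact Iff.rfl
  | succ k ih =>
    show (∀ᶠ c in (U : Filter α), Iter U (fun E => ¬ P E) k (insert c F)) ↔
      ¬ (∀ᶠ c in (U : Filter α), Iter U P k (insert c F))
    rw [← Ultrafilter.eventually_not]
    exact eventually_congr (Eventually.of_forall (fun c => ih (insert c F)))

theorem of_iter {α : Type*} [DecidableEq α] (U : Ultrafilter α) (C : Set α)
    (hC : ∀ᶠ c in (U : Filter α), c ∈ C)
    (hU : ∀ F : Finset α, ∀ᶠ c in (U : Filter α), c ∉ F) (P : Finset α → Prop) (n : ℕ)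
    (h : Iter U P n ∅) :
    ∃ T : Set α, T ⊆ C ∧ T.Infinite ∧ ∀ E : Finset α, (E : Set α) ⊆ T → E.card = n → P E := by
  obtain ⟨T, hT, hg⟩ := exists_infinite
    (fun F : Finset α => (F : Set α) ⊆ C ∧ ∀ E ⊆ F, E.card ≤ n → Iter U P (n - E.card) E)
    (fun E F hEF hF => ⟨fun x hx => hF.1 (hEF hx), fun E' hE' hc => hF.2 E' (hE'.trans hEF) hc⟩)
    (by
      refine ⟨by simp, fun E hE _ => ?_⟩
      rw [Finset.subset_empty] at hE
      subst hE
      simpa using h)
    (by
      rintro F ⟨hFC, hF⟩
      have h1 : ∀ᶠ c in (U : Filter α), ∀ E ∈ F.powerset, E.card < n →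
          Iter U P (n - E.card - 1) (insert c E) := by
        rw [eventually_all_finset]
        intro E hE
        rw [Finset.mem_powerset] at hE
        by_cases hc : E.card < n
        · have h2 := hF E hE hc.le
          obtain ⟨k, hk⟩ : ∃ k, n - E.card = k + 1 := ⟨n - E.card - 1, by omega⟩
          rw [hk] at h2
          rw [hk]
          filter_upwards [h2] with c hc' _
          simpa using hc'
        · exact Eventually.of_forall (fun c h => absurd h hc)
      obtain ⟨c, hcC, hcF, hcI⟩ := (hC.and ((hU F).and h1)).exists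
      refine ⟨c, hcF, ?_, ?_⟩
      · rw [Finset.coe_insert, Set.insert_subset_iff]
        exact ⟨hcC, hFC⟩
      · intro E hE hEn
        by_cases hcE : c ∈ E
        · have h3 : E.erase c ⊆ F := by
            intro y hy
            rw [Finset.mem_erase] at hy
            exact (Finset.mem_insert.1 (hE hy.2)).resolve_left hy.1
          have h4 : (E.erase c).card = E.card - 1 := Finset.card_erase_of_mem hcE
          have h5 : 0 < E.card := Finset.card_pos.2 ⟨c, hcE⟩
          have h6 := hcI (E.erase c) (Finset.mem_powerset.2 h3) (by omega)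
          rw [Finset.insert_erase hcE] at h6
          have h7 : n - (E.erase c).card - 1 = n - E.card := by omega
          rw [h7] at h6
          exact h6
        · exact hF E ((Finset.subset_insert_iff_of_notMem hcE).1 hE) hEn)
  refine ⟨T, ?_, hT, ?_⟩
  · intro x hx
    have := (hg {x} (by simpa using hx)).1
    simpa using this
  · intro E hE hEn
    have h2 := (hg E hE).2 E (Finset.Subset.refl E) hEn.le
    rw [hEn, Nat.sub_self] at h2
    exact h2

/-- The theorem of Ramsey. -/
theorem ramsey {α : Type*} [DecidableEq α] (C : Set α) (hC : C.Infinite) (P : Finset α → Prop)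
    (n : ℕ) :
    ∃ T : Set α, T ⊆ C ∧ T.Infinite ∧
      ((∀ E : Finset α, (E : Set α) ⊆ T → E.card = n → P E) ∨
        (∀ E : Finset α, (E : Set α) ⊆ T → E.card = n → ¬ P E)) := by
  have : (cofinite ⊓ 𝓟 C).NeBot := cofinite_inf_principal_neBot_iff.2 hC
  let U : Ultrafilter α := Ultrafilter.of (cofinite ⊓ 𝓟 C)
  have hle : (U : Filter α) ≤ cofinite ⊓ 𝓟 C := Ultrafilter.of_le _
  have h1 : ∀ᶠ c in (U : Filter α), c ∈ C :=
    (hle.trans inf_le_right) (mem_principal_self C)
  have h2 : ∀ F : Finset α, ∀ᶠ c in (U : Filter α), c ∉ F := by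
    intro F
    have h3 : ((F : Set α)ᶜ) ∈ (cofinite : Filter α) := F.finite_toSet.compl_mem_cofinite
    exact (hle.trans inf_le_left) h3
  by_cases h : Iter U P n ∅
  · obtain ⟨T, a, b, c⟩ := of_iter U C h1 h2 P n h
    exact ⟨T, a, b, Or.inl c⟩
  · obtain ⟨T, a, b, c⟩ := of_iter U C h1 h2 (fun E => ¬ P E) n ((iter_not U P n ∅).2 h)
    exact ⟨T, a, b, Or.inr c⟩

/-- An infinite set contains `n` pairwise disjoint infinite sets. -/
theorem split {α : Type*} {T : Set α} (hT : T.Infinite) (n : ℕ) :
    ∃ S : Fin n → Set α, (∀ i, (S i).Infinite) ∧ (∀ i, S i ⊆ T) ∧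
      ∀ i j x, x ∈ S i → x ∈ S j → i = j := by
  let f := hT.natEmbedding
  refine ⟨fun i => Set.range (fun k : ℕ => (f (Encodable.encode (k, i)) : α)), ?_, ?_, ?_⟩
  · intro i
    apply Set.infinite_range_of_injective
    intro a b hab
    have h1 := f.injective (Subtype.ext hab)
    have h2 := Encodable.encode_injective h1
    exact (Prod.ext_iff.1 h2).1
  · rintro i _ ⟨k, rfl⟩
    exact (f _).2
  · rintro i j x ⟨k, rfl⟩ ⟨l, hl⟩
    have h1 := f.injective (Subtype.ext hl)
    have h2 := Encodable.encode_injective h1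
    exact (Prod.ext_iff.1 h2).2.symm

end Pool.Agent.GLW18
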